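import Pool.Agent.H.MP_fcf9e8_nt.B

set_option autoImplicit false

namespace Pool.Agent.Results.MP_fcf9e8_nt.AlmostPower

open Pool.Agent.H.MP_fcf9e8_nt

theorem result (b : ℕ) (hb : 2 ≤ b) :
    ∃ c : ℝ, 0 < c ∧ ∃ C : ℝ, 0 < C ∧ ∀ N : ℕ, 16 ≤ N → ∀ γ : ℝ,
      ∃ n : ℕ, 1 ≤ n ∧ n ≤ N ∧ (∃ S : Finset ℕ, S.Nonempty ∧ n = ∑ d ∈ S, b ^ d) ∧
        |γ * n - round (γ * n)| ≤
          C * Real.exp (-(c * Real.log N / (Real.log (Real.log N)) ^ 2)) := by
  obtain ⟨h, rfl⟩ : ∃ h, b = h + 1 := ⟨b - 1, by omega⟩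
  have hh : 1 ≤ h := by omega
  set β : ℝ := ((h + 1 : ℕ) : ℝ) with hβ
  have hβh : β = h + 1 := by rw [hβ]; push_cast; ring
  have hh' : (1 : ℝ) ≤ h := by exact_mod_cast hh
  have hβ2 : 2 ≤ β := by linarith
  set A : ℝ := 4 * β ^ 2 with hA
  have hA1 : 1 ≤ A := by nlinarith
  set A2 : ℝ := 2 * A * (β + 2 + 2 * A) + 1 with hA2
  have hA21 : 1 ≤ A2 := by nlinarith
  set A3 : ℝ := 2 * A * (2 + h) + 1 with hA3
  have hA31 : 1 ≤ A3 := by nlinarith
  set ε : ℝ := 1 / (A2 * β) with hε
  have hε0 : 0 < ε := by positivity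
  have hε1 : ε ≤ 1 := by rw [hε, div_le_one (by positivity)]; nlinarith
  refine ⟨ε / 4, by positivity, 8 * A3, by positivity, fun N hN γ => ?_⟩
  set u := Real.log N with hu
  set v := Real.log u with hv
  have hN' : (16 : ℝ) ≤ N := by exact_mod_cast hN
  have hue : Real.exp 1 ≤ u := by
    have h1 : Real.log 16 ≤ u := Real.log_le_log (by norm_num) hN'
    have h2 : Real.log 16 = 4 * Real.log 2 := by
      rw [show (16 : ℝ) = 2 ^ 4 by norm_num, Real.log_pow]; norm_num
    have := Real.exp_one_lt_d9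
    have := Real.log_two_gt_d9
    linarith
  have hu0 : 0 < u := (Real.exp_pos 1).trans_le hue
  have hv1 : 1 ≤ v := by rw [hv, Real.le_log_iff_exp_le hu0]; exact hue
  set x := ε * u / v ^ 2 with hx
  have hx0 : 0 ≤ x := by positivity
  have hxe : ε / 4 * u / v ^ 2 = x / 4 := by rw [hx]; ring
  rw [hxe]
  have he4 : Real.exp (1 / 4) ≤ 2 := by
    rw [← Real.le_log_iff_exp_le (by norm_num)]
    have := Real.log_two_gt_d9
    linarith
  by_cases hx1 : x < 1
  · refine ⟨1, le_rfl, by omega, ⟨{0}, by simp, by simp⟩, (abs_sub_round _).trans ?_⟩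
    have h1 : Real.exp (-(1 / 4)) ≤ Real.exp (-(x / 4)) := Real.exp_le_exp.2 (by linarith)
    have h2 : Real.exp (-(1 / 4)) * Real.exp (1 / 4) = 1 := by rw [← Real.exp_add]; simp
    have h3 := mul_le_mul_of_nonneg_left he4 (Real.exp_pos (-(1 / 4))).le
    have h4 := mul_le_mul_of_nonneg_right hA31 (Real.exp_pos (-(x / 4))).le
    linarith
  push Not at hx1
  set k := ⌊x⌋₊ with hk
  have hk1 : 1 ≤ k := Nat.le_floor (by simpa using hx1)
  have hk1' : (1 : ℝ) ≤ k := by exact_mod_cast hk1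
  have hkx : (k : ℝ) ≤ x := Nat.floor_le hx0
  have hkx' : x < k + 1 := Nat.lt_floor_add_one x
  have hv2 : 1 ≤ v ^ 2 := one_le_pow₀ hv1
  have hkv : k * v ^ 2 ≤ ε * u := by rwa [hx, le_div_iff₀ (by positivity)] at hkx
  have hku : (k : ℝ) ≤ u := by
    have h1 := mul_le_mul_of_nonneg_left hv2 (Nat.cast_nonneg (α := ℝ) k)
    have h2 := mul_le_mul_of_nonneg_right hε1 hu0.le
    linarith
  have hlk : Real.log k ≤ v := Real.log_le_log (by linarith) hku
  have hlk' : Real.log k ≤ k := (Real.log_le_sub_one_of_pos (by linarith)).trans (by linarith)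
  have hlk0 : 0 ≤ Real.log k := Real.log_nonneg hk1'
  have hlβ : Real.log β ≤ β := (Real.log_le_sub_one_of_pos (by linarith)).trans (by linarith)
  have hl2β : Real.log (2 * β) ≤ 2 * β :=
    (Real.log_le_sub_one_of_pos (by linarith)).trans (by linarith)
  have hl0 : 0 ≤ Real.log (k * (2 * β)) := Real.log_nonneg (one_le_mul_of_one_le_of_one_le hk1' (by linarith))
  set J := ⌈h * Real.log (k * (2 * β))⌉₊ with hJ
  have hJ1 : h * Real.log (k * (2 * β)) ≤ J := Nat.le_ceil _
  have hJ2 : (J : ℝ) ≤ h * (Real.log k + 2 * β) + 1 := by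
    have := (Nat.ceil_lt_add_one (by positivity : 0 ≤ h * Real.log (k * (2 * β)))).le
    rw [← hJ, Real.log_mul (by positivity) (by positivity)] at this
    have h2 := mul_le_mul_of_nonneg_left hl2β (Nat.cast_nonneg (α := ℝ) h)
    linarith
  have hJA : ∀ y : ℝ, 1 ≤ y → Real.log k ≤ y → (J : ℝ) ≤ A * y := by
    intro y hy hy'
    have h1 : h * (Real.log k + 2 * β) ≤ β * (y + 2 * β * y) := by
      have := mul_le_mul_of_nonneg_left hy (by linarith : 0 ≤ 2 * β)
      apply mul_le_mul (by linarith) (by linarith) (by positivity) (by positivity)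
    have h2 : β * y ≤ β * β * y := mul_le_mul_of_nonneg_right
      (le_mul_of_one_le_right (by linarith) (by linarith)) (by linarith)
    have h3 : 1 ≤ β * y := one_le_mul_of_one_le_of_one_le (by linarith) hy
    rw [hA]; linarith
  have hcond : (1 - 1 / (h : ℝ)) ^ J * Real.log (β ^ k) < Real.log 2 := by
    have hc : (0 : ℝ) ≤ 1 - 1 / (h : ℝ) := by
      have : 1 / (h : ℝ) ≤ 1 := by rw [div_le_one (by linarith)]; exact hh'
      linarith
    have h1 : (1 - 1 / (h : ℝ)) ^ J ≤ Real.exp (-(1 / h)) ^ J :=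
      pow_le_pow_left₀ hc (by have := Real.add_one_le_exp (-(1 / (h : ℝ))); linarith) J
    have h2 : Real.exp (-(1 / h)) ^ J ≤ 1 / (k * (2 * β)) := by
      rw [← Real.exp_nat_mul, one_div (k * (2 * β)), ← Real.exp_log (by positivity : 0 < k * (2 * β)),
        ← Real.exp_neg]
      apply Real.exp_le_exp.2
      have : Real.log (k * (2 * β)) ≤ J * (1 / h) := by
        rw [mul_one_div, le_div_iff₀ (by linarith)]; linarith
      linarith
    have h3 : Real.log (β ^ k) ≤ k * β := by
      rw [Real.log_pow]; exact mul_le_mul_of_nonneg_left hlβ (by positivity)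
    have h4 : 0 ≤ Real.log (β ^ k) := Real.log_nonneg (one_le_pow₀ (by linarith))
    have h5 := mul_le_mul (h1.trans h2) h3 h4 (by positivity)
    have h6 : 1 / (k * (2 * β)) * (k * β) = 1 / 2 := by field_simp
    have := Real.log_two_gt_d9
    linarith
  obtain ⟨n, hn, hpos, z, hz⟩ := finite_bound hh γ hcond
  refine ⟨n, hpos, ?_, ?_, (round_le _ z).trans (hz.trans ?_)⟩
  · have h1 := (Z_lt (by omega) hn).le
    set L := 2 * J * ((h + 1) * k + (2 * J * k + 1) + k) + 1 with hL
    have hJv := hJA v hv1 hlk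
    have hJ0 : (0 : ℝ) ≤ J := by positivity
    have hL' : (L : ℝ) ≤ A2 * (k * v ^ 2) := by
      have e : (L : ℝ) = 2 * J * (β * k + (2 * J * k + 1) + k) + 1 := by
        rw [hL, hβh]; push_cast; ring
      have a1 : β * k + (2 * J * k + 1) + k ≤ k * ((β + 2 + 2 * A) * v) := by
        have h0 := mul_le_mul_of_nonneg_left hv1 (by linarith : 0 ≤ β + 2)
        have : β + 2 + 2 * J ≤ (β + 2 + 2 * A) * v := by linarith
        have := mul_le_mul_of_nonneg_left this (Nat.cast_nonneg (α := ℝ) k)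
        linarith
      have a2 : 2 * J * (β * k + (2 * J * k + 1) + k) ≤ 2 * (A * v) * (k * ((β + 2 + 2 * A) * v)) :=
        mul_le_mul (by linarith) a1 (by positivity) (by positivity)
      have a3 : 1 ≤ k * v ^ 2 := one_le_mul_of_one_le_of_one_le hk1' hv2
      rw [e, hA2]; linarith
    have h2 : L * Real.log β ≤ u := by
      have a1 : L * Real.log β ≤ (A2 * (ε * u)) * β :=
        mul_le_mul (hL'.trans (mul_le_mul_of_nonneg_left hkv (by positivity))) hlβ
          (Real.log_nonneg (by linarith)) (by positivity)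
      have a2 : (A2 * (ε * u)) * β = u := by rw [hε]; field_simp
      linarith
    have h3 : β ^ L ≤ N := by
      rw [← Real.log_le_log_iff (by positivity) (by positivity), Real.log_pow]; exact h2
    have h4 : (n : ℝ) ≤ β ^ L := by rw [hβ]; exact_mod_cast h1
    exact_mod_cast h4.trans h3
  · obtain ⟨S, -, rfl⟩ := hn
    refine ⟨S, ?_, rfl⟩
    rw [Finset.nonempty_iff_ne_empty]
    rintro rfl
    simp at hpos
  · have hJk := hJA k hk1' hlk'
    have a1 : 2 * J * (2 + h) + 1 ≤ A3 * k := by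
      have : (J : ℝ) * (2 + h) ≤ A * k * (2 + h) := mul_le_mul_of_nonneg_right hJk (by positivity)
      rw [hA3]; linarith
    have a2 : Real.exp (k / 2) ≤ β ^ k := by
      have : Real.exp (k / 2) = Real.exp (1 / 2) ^ k := by rw [← Real.exp_nat_mul]; ring_nf
      rw [this]
      apply pow_le_pow_left₀ (Real.exp_pos _).le
      have : Real.exp (1 / 2) ≤ 2 := by
        rw [← Real.le_log_iff_exp_le (by norm_num)]
        have := Real.log_two_gt_d9
        linarith
      linarith
    have a3 : (k : ℝ) ≤ 4 * Real.exp (k / 4) := by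
      have := Real.add_one_le_exp ((k : ℝ) / 4); linarith
    have a4 : Real.exp (k / 4) ≤ 2 * (Real.exp (-(x / 4)) * Real.exp (k / 2)) := by
      have : Real.exp (k / 4) ≤ Real.exp (1 / 4) * (Real.exp (-(x / 4)) * Real.exp (k / 2)) := by
        rw [← Real.exp_add, ← Real.exp_add]; apply Real.exp_le_exp.2; linarith
      exact this.trans (mul_le_mul_of_nonneg_right he4 (by positivity))
    rw [div_le_iff₀ (by positivity)]
    have a5 : Real.exp (-(x / 4)) * Real.exp (k / 2) ≤ Real.exp (-(x / 4)) * β ^ k :=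
      mul_le_mul_of_nonneg_left a2 (Real.exp_pos _).le
    have a6 : A3 * k ≤ A3 * (8 * (Real.exp (-(x / 4)) * β ^ k)) :=
      mul_le_mul_of_nonneg_left (by linarith) (by positivity)
    linarith

end Pool.Agent.Results.MP_fcf9e8_nt.AlmostPower
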